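import Mathlib

/-!
# XOR functions: parity decision depth `s ^ o(1)` (MP_e5d384_lc): definitions

Everything is finite: laws are functions `P : Ω → ℝ` on finite types.
-/

set_option autoImplicit false

namespace Pool.Agent.XO

open Finset

section Prob

variable {Ω α : Type} [Fintype Ω]

/-- a probability law on a finite set -/
structure IsLaw (P : Ω → ℝ) : Prop where
  nonneg : ∀ ω, 0 ≤ P ω
  sum_one : ∑ ω, P ω = 1

open Classical in
/-- the probability of an event -/
noncomputable def pr (P : Ω → ℝ) (A : Ω → Prop) : ℝ := ∑ ω, if A ω then P ω else 0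

open Classical in
/-- the law of the random variable `X` -/
noncomputable def lw (P : Ω → ℝ) (X : Ω → α) (a : α) : ℝ := ∑ ω, if X ω = a then P ω else 0

/-- the entropy of a law (natural logarithm) -/
noncomputable def ent [Fintype α] (q : α → ℝ) : ℝ := ∑ a, Real.negMulLog (q a)

/-- the entropy of a random variable -/
noncomputable def HH [Fintype α] (P : Ω → ℝ) (X : Ω → α) : ℝ := ent (lw P X)

end Prob

section Group

variable {V : Type} [AddCommGroup V] [Fintype V] [DecidableEq V]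

/-- the weight `p (c₁) ⋯ p (c_k)` of a tuple -/
def pw (p : V → ℝ) {k : ℕ} (c : Fin k → V) : ℝ := ∏ i, p (c i)

/-- the law of `Z_k = X₁ + ⋯ + X_k` -/
def cp (p : V → ℝ) (k : ℕ) (Z : V) : ℝ := ∑ c : Fin k → V, if ∑ i, c i = Z then pw p c else 0

/-- the law of `X₁` given `Z_k = Z` -/
noncomputable def mu (p : V → ℝ) (k : ℕ) (Z c : V) : ℝ := p c * cp p (k - 1) (Z - c) / cp p k Z

/-- the law of `(X₁, …, X_m)` given `Z_k = Z` (`m ≤ k`) -/
noncomputable def mum (p : V → ℝ) (k : ℕ) {m : ℕ} (Z : V) (c : Fin m → V) : ℝ :=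
  pw p c * cp p (k - m) (Z - ∑ i, c i) / cp p k Z

/-- `A(k) = H(X₁ | Z_k)` -/
noncomputable def AA (p : V → ℝ) (k : ℕ) : ℝ := ent p + ent (cp p (k - 1)) - ent (cp p k)

/-- strong spread: few elements of the support become congruent modulo a subspace of dimension
at most `s ^ κ` -/
def SSpread [Module (ZMod 2) V] (p : V → ℝ) (s κ κ' : ℝ) : Prop :=
  ∀ U : Submodule (ZMod 2) V, (Module.finrank (ZMod 2) U : ℝ) ≤ s ^ κ →
    ∃ Lt : Finset V, (∀ c c', p c ≠ 0 → p c' ≠ 0 → c ≠ c' → c + c' ∈ U → c ∈ Lt ∨ c' ∈ Lt) ∧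
      ∑ c ∈ Lt, p c ≤ s ^ (-κ')

/-- the hypotheses of Part I -/
structure PWorld [Module (ZMod 2) V] (p : V → ℝ) (s κ κ' : ℝ) : Prop where
  law : IsLaw p
  card : ((univ.filter fun c => p c ≠ 0).card : ℝ) ≤ s
  spread : SSpread p s κ κ'

/-- the hypotheses of the main theorem: `p = |F| / L`, `e = sgn F`, where `F * F = δ₀` -/
structure World [Module (ZMod 2) V] (p e : V → ℝ) (s κ κ' κ2 : ℝ) : Prop
    extends PWorld p s κ κ' where
  sgn : ∀ c, e c = 1 ∨ e c = -1
  bal : ∀ g, g ≠ 0 → ∑ c, p c * p (g - c) * (e c * e (g - c)) = 0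
  small : ∀ c, p c ≤ s ^ (-κ2)

end Group

section Act

/-- `Reach σ y g c`: the tuple `c` is obtained from `y` by `g` gates -/
inductive Reach {S : Type} {M : ℕ} (σ : S → S → S × S) (y : Fin M → S) : ℕ → (Fin M → S) → Prop
  | zero : Reach σ y 0 y
  | step {g : ℕ} {c : Fin M → S} (a b : Fin M) (hab : a ≠ b) (h : Reach σ y g c) :
      Reach σ y (g + 1)
        (Function.update (Function.update c a (σ (c a) (c b)).1) b (σ (c a) (c b)).2)

/-- a system of conserved atoms -/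
structure ACT {S : Type} {M : ℕ} (Λ G : ℕ) (e : S → ℝ) (σ : S → S → S × S) (K : S → Finset ℕ)
    (y : Fin M → S) : Prop where
  sgn : ∀ x, e x = 1 ∨ e x = -1
  disj : ∀ g ≤ G, ∀ c, Reach σ y g c → ∀ a b, a ≠ b → Disjoint (K (c a)) (K (c b))
  cons : ∀ g ≤ G, ∀ c, Reach σ y g c →
    (univ.biUnion fun a => K (c a)) = univ.biUnion fun a => K (y a)
  flip : ∀ g ≤ G, ∀ c, Reach σ y g c → ∀ a b, a ≠ b →
    e (σ (c a) (c b)).1 * e (σ (c a) (c b)).2 = -(e (c a) * e (c b))
  uniq : ∀ g ≤ G, ∀ g' ≤ G, ∀ c c', Reach σ y g c → Reach σ y g' c' → ∀ a a',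
    K (c a) = K (c' a') → e (c a) = e (c' a')
  card : ∀ a, (K (y a)).card ≤ Λ

end Act

end Pool.Agent.XO
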