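import Mathlib
import Pool.Agent.Lib_helper94.XO.Defs
set_option autoImplicit false

/-! Definitions for PART II. -/

namespace Pool.Agent.XO

open Finset

variable {V : Type} [AddCommGroup V] [Fintype V] [DecidableEq V]

/-- law of `(z, (y₁, …, y_m))` -/
noncomputable def LB (p : V → ℝ) (n m : ℕ) (x : (Fin n → V) × (Fin m → V)) : ℝ :=
  pw p x.1 * mum p n (∑ i, x.1 i) x.2

/-- `c` is an effective decomposition of `Y` into `M` elements -/
def Eff (p : V → ℝ) {M : ℕ} (v : ℝ) (Y : V) (c : Fin M → V) : Prop :=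
  ∑ i, c i = Y ∧ v * cp p M Y ≤ pw p c ∧ 0 < pw p c

/-- `min (- x log x, T x)` -/
noncomputable def psi (T x : ℝ) : ℝ := min (Real.negMulLog x) (T * x)

/-- `A^T(n)` -/
noncomputable def AT (p : V → ℝ) (T : ℝ) (n : ℕ) : ℝ := ∑ Z, cp p n Z * ∑ c, psi T (mu p n Z c)

/-- `Δ_T(n)` -/
noncomputable def Del (p : V → ℝ) (T : ℝ) (n : ℕ) : ℝ :=
  ∑ ζ, ∑ x, cp p (n - 1) ζ * p x * ∑ c, if Real.exp (-T) ≤ mu p n (ζ + x) c then
    (√(mu p (n - 1) ζ c) - √(mu p n (ζ + x) c)) ^ 2 else 0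

open Classical in
/-- the elements accessible with the sum `ζ` of `n - 1` elements and one more element -/
noncomputable def Acl (p : V → ℝ) (n : ℕ) (w θ : ℝ) (ζ : V) : Finset V :=
  univ.filter fun c => p c ≠ 0 ∧ θ ≤ pr p (fun x => w ≤ mu p n (ζ + x) c)

open Classical in
/-- the support of `c` -/
noncomputable def KK (p : V → ℝ) {n : ℕ} (w θ : ℝ) (z : Fin n → V) (c : V) : Finset (Fin n) :=
  univ.filter fun j => c ∉ Acl p n w θ (∑ i, z i - z j)

/-- `σ` chooses a heaviest pair with the same sum and the opposite product of signs -/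
def IsGate (p e : V → ℝ) (σ : V → V → V × V) : Prop :=
  ∀ a b, p a ≠ 0 → p b ≠ 0 → a ≠ b →
    (σ a b).1 + (σ a b).2 = a + b ∧ 0 < p (σ a b).1 * p (σ a b).2 ∧
    e (σ a b).1 * e (σ a b).2 = -(e a * e b) ∧
    ∀ x y, x + y = a + b → e x * e y = -(e a * e b) → p x * p y ≤ p (σ a b).1 * p (σ a b).2

/-- the pair `(a, b)` has a sign for which all pairs with the same sum are lighter than `v` -/
def LightPair (p e : V → ℝ) (v : ℝ) (a b : V) : Prop :=
  a ≠ b ∧ ∃ ε : ℝ, (ε = 1 ∨ ε = -1) ∧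
    ∀ x y, x + y = a + b → e x * e y = ε → p x * p y < v * cp p 2 (a + b)

/-- the bad event for the coordinate `j` (II.7) -/
def BadJ (p : V → ℝ) {n : ℕ} (M : ℕ) (w v θ θ' : ℝ) (z : Fin n → V) (j : Fin n) : Prop :=
  ∃ c : Fin M → V, (∀ a, c a ∈ Acl p n w θ (∑ i, z i - z j)) ∧
    ∃ c' : Fin M → V, Eff p v (∑ a, c a) c' ∧
      ∃ a, c' a ∉ Acl p n w θ' (∑ i, z i - z j) ∧ w ≤ mu p n (∑ i, z i) (c' a)

open Classical in
/-- `ρ_j` -/
noncomputable def rho (p : V → ℝ) {n : ℕ} (T w θ : ℝ) (z : Fin n → V) (j : Fin n) : ℝ :=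
  ∑ c, if Real.exp (-T) ≤ mu p n (∑ i, z i) c ∧ j ∈ KK p w θ z c then mu p n (∑ i, z i) c else 0

open Classical in
/-- the hubs -/
noncomputable def Hub (p : V → ℝ) {n : ℕ} (T w θ δ : ℝ) (z : Fin n → V) : Finset (Fin n) :=
  univ.filter fun j => δ ≤ rho p T w θ z j

open Classical in
/-- sums of `m` elements of `A ∪ {0}` -/
noncomputable def Gs (A : Finset V) (m : ℕ) : Finset V :=
  (Fintype.piFinset fun _ : Fin m => insert 0 A).image fun f => ∑ i, f i

end Pool.Agent.XO
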