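import Mathlib
import Pool.Agent.Lib_helper94.XO.Defs
set_option autoImplicit false

/-! General facts about laws on finite sets. -/

namespace Pool.Agent.XO

open Finset

variable {Ω : Type} [Fintype Ω] {P : Ω → ℝ}

theorem pr_nonneg (h : ∀ ω, 0 ≤ P ω) (A : Ω → Prop) : 0 ≤ pr P A := by
  classical
  unfold pr
  exact Finset.sum_nonneg fun ω _ => by split_ifs <;> [exact h ω; exact le_rfl]

theorem pr_mono (h : ∀ ω, 0 ≤ P ω) {A B : Ω → Prop} (hAB : ∀ ω, 0 < P ω → A ω → B ω) :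
    pr P A ≤ pr P B := by
  classical
  unfold pr
  refine Finset.sum_le_sum fun ω _ => ?_
  by_cases hA : A ω
  · rcases (h ω).lt_or_eq with h0 | h0
    · rw [if_pos hA, if_pos (hAB ω h0 hA)]
    · rw [← h0]; simp
  · rw [if_neg hA]
    split_ifs <;> [exact h ω; exact le_rfl]

theorem pr_or_le (h : ∀ ω, 0 ≤ P ω) (A B : Ω → Prop) :
    pr P (fun ω => A ω ∨ B ω) ≤ pr P A + pr P B := by
  classical
  unfold pr
  rw [← Finset.sum_add_distrib]
  refine Finset.sum_le_sum fun ω _ => ?_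
  have := h ω
  by_cases hA : A ω <;> by_cases hB : B ω <;> simp [hA, hB, this]

theorem pr_exists_le {ι : Type} [Fintype ι] (h : ∀ ω, 0 ≤ P ω) (A : ι → Ω → Prop) :
    pr P (fun ω => ∃ i, A i ω) ≤ ∑ i, pr P (A i) := by
  classical
  unfold pr
  rw [Finset.sum_comm]
  refine Finset.sum_le_sum fun ω _ => ?_
  by_cases hA : ∃ i, A i ω
  · obtain ⟨i, hi⟩ := hA
    rw [if_pos ⟨i, hi⟩]
    have := Finset.single_le_sum (f := fun i => if A i ω then P ω else 0)
      (fun i _ => by show (0 : ℝ) ≤ if A i ω then P ω else 0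
                     split_ifs <;> [exact h ω; exact le_rfl]) (Finset.mem_univ i)
    simpa [hi] using this
  · rw [if_neg hA]
    exact Finset.sum_nonneg fun i _ => by split_ifs <;> [exact h ω; exact le_rfl]

theorem pr_le_one (h : IsLaw P) (A : Ω → Prop) : pr P A ≤ 1 := by
  classical
  rw [← h.sum_one]
  unfold pr
  refine Finset.sum_le_sum fun ω _ => ?_
  split_ifs <;> [exact le_rfl; exact h.nonneg ω]

theorem pr_compl (h : IsLaw P) (A : Ω → Prop) : pr P (fun ω => ¬ A ω) = 1 - pr P A := by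
  classical
  rw [← h.sum_one, eq_sub_iff_add_eq]
  unfold pr
  rw [← Finset.sum_add_distrib]
  refine Finset.sum_congr rfl fun ω _ => ?_
  by_cases hA : A ω <;> simp [hA]

theorem pr_markov (h : ∀ ω, 0 ≤ P ω) (f : Ω → ℝ) (hf : ∀ ω, 0 ≤ f ω) {t : ℝ} (ht : 0 < t) :
    pr P (fun ω => t ≤ f ω) ≤ (∑ ω, P ω * f ω) / t := by
  classical
  rw [le_div_iff₀ ht]
  unfold pr
  rw [Finset.sum_mul]
  refine Finset.sum_le_sum fun ω _ => ?_
  have h1 := h ω
  have h2 := hf ω
  split_ifs with h3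
  · exact mul_le_mul_of_nonneg_left h3 h1
  · rw [zero_mul]; exact mul_nonneg h1 h2

theorem exists_of_pr_lt_one (h : IsLaw P) {A : Ω → Prop} (hA : pr P A < 1) :
    ∃ ω, 0 < P ω ∧ ¬ A ω := by
  classical
  by_contra hcon
  push Not at hcon
  have h1 : pr P A = 1 := by
    rw [← h.sum_one]
    unfold pr
    refine Finset.sum_congr rfl fun ω _ => ?_
    rcases (h.nonneg ω).lt_or_eq with h0 | h0
    · rw [if_pos (hcon ω h0)]
    · rw [← h0]; simp
  linarith

end Pool.Agent.XO
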