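import Mathlib
import Pool.Agent.Lib_helper94.XO.F.P2_A1
import Pool.Agent.Lib_helper94.XO.F.P2_A2a
import Pool.Agent.Lib_helper94.XO.F.P2_A2b
import Pool.Agent.Lib_helper94.XO.F.P2_A2c
import Pool.Agent.Lib_helper94.XO.F.P2_A2d
import Pool.Agent.Lib_helper94.XO.F.P2_A3a
import Pool.Agent.Lib_helper94.XO.F.P2_A3b
import Pool.Agent.Lib_helper94.XO.F.P2_A3c
import Pool.Agent.Lib_helper94.XO.F.P2_A3d
import Pool.Agent.Lib_helper94.XO.F.P2_A3e
import Pool.Agent.Lib_helper94.XO.F.P2_A3f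
import Pool.Agent.Lib_helper94.XO.F.P2_A4a
import Pool.Agent.Lib_helper94.XO.F.P2_A4b
import Pool.Agent.Lib_helper94.XO.F.P2_B1a
import Pool.Agent.Lib_helper94.XO.F.P2_B1b
import Pool.Agent.Lib_helper94.XO.F.P2_B1c
import Pool.Agent.Lib_helper94.XO.F.P2_B2
import Pool.Agent.Lib_helper94.XO.F.P2_B3a
import Pool.Agent.Lib_helper94.XO.F.P2_B3b
import Pool.Agent.Lib_helper94.XO.F.P2_B4a
import Pool.Agent.Lib_helper94.XO.F.P2_B4b
import Pool.Agent.Lib_helper94.XO.F.P2_B4c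
import Pool.Agent.Lib_helper94.XO.F.P2_B4d
import Pool.Agent.Lib_helper94.XO.F.P2_C1
import Pool.Agent.Lib_helper94.XO.F.P2_C2
import Pool.Agent.Lib_helper94.XO.F.P2_C3
import Pool.Agent.Lib_helper94.XO.F.P2_C4
import Pool.Agent.Lib_helper94.XO.F.P2_C5
import Pool.Agent.Lib_helper94.XO.F.P2_C6
import Pool.Agent.Lib_helper94.XO.F.P2_D1
import Pool.Agent.Lib_helper94.XO.F.P2_D2
import Pool.Agent.Lib_helper94.XO.F.P2_D3
import Pool.Agent.Lib_helper94.XO.F.P2_E1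
import Pool.Agent.Lib_helper94.XO.F.P2_E2
import Pool.Agent.Lib_helper94.XO.F.P2_F1
import Pool.Agent.Lib_helper94.XO.F.P2_G1
import Pool.Agent.Lib_helper94.XO.F.P2_H1
import Pool.Agent.Lib_helper94.XO.P1Top

/-! All blocks of PART II. -/
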