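import Mathlib
import Pool.Agent.Lib_helper94.XO.P2
import Pool.Agent.Lib_helper94.XO.Sel.Select
import Pool.Agent.Lib_helper94.XO.Sel.Act
import Pool.Agent.Lib_helper10.XO.P3.ZA
set_option autoImplicit false

/-! PART II from its two halves, and the MAIN THEOREM. -/

namespace Pool.Agent.XO

open Finset Filter

/-- PART II -/
theorem part_two (κ κ' κ2 : ℝ) (hκ : 0 < κ) (hκ' : 0 < κ') (hκ2 : 0 < κ2) :
    ∃ Λ : ℕ, ∀ M G : ℕ, ∀ᶠ s : ℝ in atTop, ∀ (V : Type) [AddCommGroup V] [Module (ZMod 2) V]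
      [Fintype V] [DecidableEq V] (p e : V → ℝ), World p e s κ κ' κ2 →
      ∃ (σ : V → V → V × V) (K : V → Finset ℕ) (y : Fin M → V), ACT Λ G e σ K y := by
  obtain ⟨Λ, hΛ⟩ := select κ κ' κ2 hκ hκ' hκ2
  refine ⟨Λ, fun M G => ?_⟩
  filter_upwards [hΛ M G] with s hs V _ _ _ _ p e hW
  obtain ⟨σ, hσ⟩ := gate_exists hW
  obtain ⟨n, v, K, Hb, y, h⟩ := hs V p e hW σ hσ
  obtain ⟨K', y', h'⟩ := sel_act_pr hW.sgn hσ h
  exact ⟨σ, K', y', h'⟩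

/-- MAIN THEOREM -/
theorem no_world (κ κ' κ2 : ℝ) (hκ : 0 < κ) (hκ' : 0 < κ') (hκ2 : 0 < κ2) :
    ∀ᶠ s : ℝ in atTop, ∀ (V : Type) [AddCommGroup V] [Module (ZMod 2) V]
      [Fintype V] [DecidableEq V] (p e : V → ℝ), ¬ World p e s κ κ' κ2 := by
  obtain ⟨Λ, hΛ⟩ := part_two κ κ' κ2 hκ hκ' hκ2
  obtain ⟨M, G, hMG⟩ := act_false Λ
  filter_upwards [hΛ M G] with s hs V _ _ _ _ p e hW
  obtain ⟨σ, K, y, h⟩ := hs V p e hW
  exact hMG V e σ K y h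

end Pool.Agent.XO
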